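import Pool.Agent.Helper12.MA.StB
import Pool.Agent.Helper12.MA.Lib

/-!
# Project MA, module ROT: the faces at `z` in `G - t - v` for a cut of the first kind
-/

set_option autoImplicit false

namespace Pool.Agent.Helper58.MA

open Pool.Agent.Helper12.MA
open Pool.Agent.Helper51.AJ (IsMinor Planar Apex ExMinor Con Tch)
open Pool.Agent.Helper12.NK (rst Kc add cnt Pcy IsFace Cof plus)

variable {V : Type}

/-- a connected set which meets `A` and its complement contains an edge leaving `A` -/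
private theorem cross {G : SimpleGraph V} {S : Set V} (h : Con G S) (A : Set V) {x y : V} (hx : x ∈ S) (hy : y ∈ S)
    (hxA : x ∈ A) (hyA : y ∉ A) : ∃ a ∈ S, ∃ c ∈ S, a ∈ A ∧ c ∉ A ∧ G.Adj a c := by
  obtain ⟨w⟩ := h.preconnected ⟨x, hx⟩ ⟨y, hy⟩
  obtain ⟨d, _, h1, h2⟩ := w.exists_boundary_dart {u : S | u.1 ∈ A} hxA hyA
  exact ⟨d.fst.1, d.fst.2, d.snd.1, d.snd.2, h1, h2, d.adj⟩

/-- a face contains at most two neighbours of `z` -/
private theorem ex2 [Finite V] (hFNB : StFNB) {M : SimpleGraph V} {U : Set V} (hM : Pn M U) {z a b c : V} {F : Set V}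
    (hF : IsFace M U F) (hU : F ⊆ U) (hz : z ∈ F) (ha : a ∈ F) (hb : b ∈ F) (hc : c ∈ F) (za : M.Adj z a) (zb : M.Adj z b)
    (zc : M.Adj z c) (hab : a ≠ b) (hac : a ≠ c) (hbc : b ≠ c) : False := by
  obtain ⟨_, h2, _⟩ := hFNB V M U hM
  obtain ⟨e, _, _, _, h⟩ := h2 z (hU hz) a (hU ha) za F hF hz ha
  rcases h b hb zb with hb' | hb'
  · exact hab hb'.symm
  · rcases h c hc zc with hc' | hc'
    · exact hac hc'.symm
    · exact hbc (hb'.trans hc'.symm)

/-- if no face contains `z, c, d` then there are faces through `z, c, a` and `z, c, b` -/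
private theorem two [Finite V] (hFAX : StFAX) (hFNB : StFNB) {M : SimpleGraph V} {U : Set V} (hM : Pn M U) {z a b c d : V}
    (hz : z ∈ U) (hc : c ∈ U) (zc : M.Adj z c) (hn : ∀ x ∈ U, M.Adj z x → x = a ∨ x = b ∨ x = c ∨ x = d)
    (hno : ¬ ∃ F, IsFace M U F ∧ z ∈ F ∧ c ∈ F ∧ d ∈ F) :
    (∃ F, IsFace M U F ∧ z ∈ F ∧ c ∈ F ∧ a ∈ F) ∧ (∃ F, IsFace M U F ∧ z ∈ F ∧ c ∈ F ∧ b ∈ F) := by
  obtain ⟨h1, h2, _, _, h5, _⟩ := hFNB V M U hM
  obtain ⟨F, F', hF, hF', hne, z1, c1, z2, c2, _⟩ := h1 z hz c hc zc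
  have key : ∀ E, IsFace M U E → z ∈ E → c ∈ E → (a ∈ E ∧ a ≠ c ∧ M.Adj z a) ∨ (b ∈ E ∧ b ≠ c ∧ M.Adj z b) := by
    intro E hE zE cE
    obtain ⟨e, he, hec, ze, _⟩ := h2 z hz c hc zc E hE zE cE
    rcases hn e ((hFAX V M U E hE).1 he) ze with h | h | h | h
    · subst h
      exact Or.inl ⟨he, hec, ze⟩
    · subst h
      exact Or.inr ⟨he, hec, ze⟩
    · exact absurd h hec
    · subst h
      exact absurd ⟨E, hE, zE, cE, he⟩ hno
  rcases key F hF z1 c1 with ⟨k1, k2, k3⟩ | ⟨k1, k2, k3⟩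
  · rcases key F' hF' z2 c2 with ⟨m1, _, _⟩ | ⟨m1, _, _⟩
    · exact absurd (h5 F F' hF hF' z c a z1 c1 k1 z2 c2 m1 (M.ne_of_adj zc) (Ne.symm k2) (M.ne_of_adj k3)) hne
    · exact ⟨⟨F, hF, z1, c1, k1⟩, ⟨F', hF', z2, c2, m1⟩⟩
  · rcases key F' hF' z2 c2 with ⟨m1, _, _⟩ | ⟨m1, _, _⟩
    · exact ⟨⟨F', hF', z2, c2, m1⟩, ⟨F, hF, z1, c1, k1⟩⟩
    · exact absurd (h5 F F' hF hF' z c b z1 c1 k1 z2 c2 m1 (M.ne_of_adj zc) (Ne.symm k2) (M.ne_of_adj k3)) hne

/-- four neighbours: if a face contains `z, a, b` then a face contains `z, c, d` -/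
private theorem four [Finite V] (hFAX : StFAX) (hFNB : StFNB) {M : SimpleGraph V} {U : Set V} (hM : Pn M U) {z a b c d : V}
    (hz : z ∈ U) (ha : a ∈ U) (hc : c ∈ U) (hd : d ∈ U) (za : M.Adj z a) (zb : M.Adj z b) (zc : M.Adj z c)
    (zd : M.Adj z d) (hn : ∀ x ∈ U, M.Adj z x → x = a ∨ x = b ∨ x = c ∨ x = d) (hab : a ≠ b) (hac : a ≠ c) (had : a ≠ d)
    (hbc : b ≠ c) (hbd : b ≠ d) (hcd : c ≠ d) {F : Set V} (hF : IsFace M U F) (zF : z ∈ F) (aF : a ∈ F) (bF : b ∈ F) :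
    ∃ F, IsFace M U F ∧ z ∈ F ∧ c ∈ F ∧ d ∈ F := by
  by_contra hno
  obtain ⟨⟨F1, hF1, z1, c1, a1⟩, _⟩ := two hFAX hFNB hM hz hc zc hn hno
  obtain ⟨⟨F2, hF2, z2, d2, a2⟩, _⟩ := two (a := a) (b := b) (c := d) (d := c) hFAX hFNB hM hz hd zd
    (fun x hx hzx => by
      rcases hn x hx hzx with h | h | h | h
      · exact Or.inl h
      · exact Or.inr (Or.inl h)
      · exact Or.inr (Or.inr (Or.inr h))
      · exact Or.inr (Or.inr (Or.inl h)))
    (fun ⟨E, hE, zE, dE, cE⟩ => hno ⟨E, hE, zE, cE, dE⟩)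
  obtain ⟨h1, _⟩ := hFNB V M U hM
  obtain ⟨E, E', _, _, _, _, _, _, _, hall⟩ := h1 z hz a ha za
  have s0 : F ⊆ U := (hFAX V M U F hF).1
  have s1 : F1 ⊆ U := (hFAX V M U F1 hF1).1
  have n01 : F ≠ F1 := fun h => by
    subst h
    exact ex2 hFNB hM hF s0 zF aF bF c1 za zb zc hab hac hbc
  have n02 : F ≠ F2 := fun h => by
    subst h
    exact ex2 hFNB hM hF s0 zF aF bF d2 za zb zd hab had hbd
  have n12 : F1 ≠ F2 := fun h => by
    subst h
    exact ex2 hFNB hM hF1 s1 z1 a1 c1 d2 za zc zd hac had hcd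
  rcases hall F hF zF aF with e0 | e0 <;> rcases hall F1 hF1 z1 a1 with e1 | e1 <;>
    rcases hall F2 hF2 z2 a2 with e2 | e2
  · exact n01 (e0.trans e1.symm)
  · exact n01 (e0.trans e1.symm)
  · exact n02 (e0.trans e2.symm)
  · exact n12 (e1.trans e2.symm)
  · exact n12 (e1.trans e2.symm)
  · exact n02 (e0.trans e2.symm)
  · exact n01 (e0.trans e1.symm)
  · exact n01 (e0.trans e1.symm)

/-- ROT. -/
theorem hROT : StFAX → StFAY → StFNB → StBAS → StROT := by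
  intro hFAX hFAY hFNB hBAS V _ G z v p q r r' f1 f2 f3 f4 C t b X Y S hs hr hpl
  have hM : Pn G {t, v}ᶜ := ⟨(hBAS V G C.bh).2.1 t v, hpl⟩
  obtain ⟨nvp, nvq, nvr, nvs, npq, npr, nps, nqr, nqs, nrs⟩ := C.ds.ne
  have nb := C.ds.nb
  have zp : G.Adj z p := (nb p).2 (by tauto)
  have zq : G.Adj z q := (nb q).2 (by tauto)
  have zr : G.Adj z r := (nb r).2 (by tauto)
  have zs : G.Adj z r' := (nb r').2 (by tauto)
  have inQ : ∀ x, x ∈ X ∨ x ∈ Y → x ≠ v ∧ x ≠ z ∧ x ≠ t ∧ x ≠ b := by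
    intro x hx
    have h : x ∈ ({v, z, t, b} : Set V)ᶜ := S.cov ▸ hx
    simpa [not_or] using h
  have kp := inQ p (Or.inl S.xL)
  have kq := inQ q (Or.inr S.yR)
  have kr := inQ r (Or.inr hr)
  have ks := inQ r' (Or.inl hs)
  have memU : ∀ x, x ≠ t → x ≠ v → x ∈ ({t, v}ᶜ : Set V) := by
    intro x h1 h2
    simp [h1, h2]
  have pU := memU p kp.2.2.1 kp.1
  have qU := memU q kq.2.2.1 kq.1
  have rU := memU r kr.2.2.1 kr.1
  have sU := memU r' ks.2.2.1 ks.1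
  have hnb : ∀ x ∈ ({t, v}ᶜ : Set V), G.Adj z x → x = p ∨ x = q ∨ x = r ∨ x = r' := by
    intro x hx hzx
    have : x ≠ v := fun h => hx (by simp [h])
    rcases (nb x).1 hzx with h | h | h | h | h
    · exact absurd h this
    all_goals tauto
  have hcard := S.card
  have le3 : ∀ x y w : V, ({x, y, w} : Set V).ncard ≤ 3 := by
    intro x y w
    have h1 := Set.ncard_insert_le x ({y, w} : Set V)
    have h2 := Set.ncard_insert_le y ({w} : Set V)
    rw [Set.ncard_singleton] at h2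
    omega
  have hbv : b ≠ v := by
    rintro rfl
    have h1 : ({b, z, t, b} : Set V) = {b, z, t} := by
      ext x
      simp
      tauto
    rw [h1] at hcard
    have := le3 b z t
    omega
  have hbz : b ≠ z := by
    rintro rfl
    have h1 : ({v, b, t, b} : Set V) = {v, b, t} := by
      ext x
      simp
      tauto
    rw [h1] at hcard
    have := le3 v b t
    omega
  have nzb : ¬ G.Adj z b := by
    intro h
    rcases (nb b).1 h with h | h | h | h | h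
    · exact hbv h
    · exact kp.2.2.2 h.symm
    · exact kq.2.2.2 h.symm
    · exact kr.2.2.2 h.symm
    · exact ks.2.2.2 h.symm
  -- a face through `z` which meets both sides and does not contain `p` and `q` contains `b`
  have key : ∀ F, IsFace G {t, v}ᶜ F → z ∈ F → ∀ a ∈ F, ∀ c ∈ F, a ∈ X → c ∈ Y → ¬ (p ∈ F ∧ q ∈ F) → b ∈ F := by
    intro F hF zF a ha c hc aX cY hpq
    by_contra hb
    have hcon := (hFAY V G _ F hF z zF).1
    have cX : c ∉ X := fun h => (Set.disjoint_left.1 S.dis h) cY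
    obtain ⟨x, hx, y, hy, xX, yX, hxy⟩ := cross hcon X (x := a) (y := c)
      ⟨ha, fun h => (inQ a (Or.inl aX)).2.1 h⟩ ⟨hc, fun h => (inQ c (Or.inr cY)).2.1 h⟩ aX cX
    have yU := (hFAX V G _ F hF).1 hy.1
    have yQ : y ∈ ({v, z, t, b} : Set V)ᶜ := by
      intro h
      simp only [Set.mem_insert_iff, Set.mem_singleton_iff] at h
      rcases h with h | h | h | h
      · exact yU (by simp [h])
      · exact hy.2 h
      · exact yU (by simp [h])
      · exact hb (h ▸ hy.1)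
    rw [← S.cov] at yQ
    have yY : y ∈ Y := yQ.resolve_left yX
    obtain ⟨e1, e2⟩ := S.only x xX y yY hxy
    exact hpq ⟨e1 ▸ hx.1, e2 ▸ hy.1⟩
  have main : ∀ F F', IsFace G {t, v}ᶜ F → IsFace G {t, v}ᶜ F' → z ∈ F → z ∈ F' → p ∈ F → r ∈ F → q ∈ F' → r' ∈ F' →
      False := by
    intro F F' hF hF' zF zF' pF rF qF sF
    have s0 := (hFAX V G _ F hF).1
    have s1 := (hFAX V G _ F' hF').1
    have b1 : b ∈ F := key F hF zF p pF r rF S.xL hr
      (fun h => ex2 hFNB hM hF s0 zF h.1 h.2 rF zp zq zr npq npr nqr)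
    have b2 : b ∈ F' := key F' hF' zF' r' sF q qF hs S.yR
      (fun h => ex2 hFNB hM hF' s1 zF' h.1 h.2 sF zp zq zs npq nps nqs)
    have h4 := (hFNB V G _ hM).2.2.2.1 F F' hF hF' z b zF b1 zF' b2 hbz.symm nzb
    subst h4
    exact ex2 hFNB hM hF s0 zF pF qF rF zp zq zr npq npr nqr
  intro Γ hΓ hz
  have zU := (hFAX V G _ Γ hΓ).1 hz
  constructor
  · rintro ⟨hp, hr'⟩
    obtain ⟨F, hF, zF, qF, sF⟩ := four (a := p) (b := r) (c := q) (d := r') hFAX hFNB hM zU pU qU sU zp zr zq zs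
      (fun x hx hzx => by
        have := hnb x hx hzx
        tauto) npr npq nps nqr.symm nrs nqs hΓ hz hp hr'
    exact main Γ F hΓ hF hz zF hp hr' qF sF
  · rintro ⟨hq, hs'⟩
    obtain ⟨F, hF, zF, pF, rF⟩ := four (a := q) (b := r') (c := p) (d := r) hFAX hFNB hM zU qU pU rU zq zs zp zr
      (fun x hx hzx => by
        have := hnb x hx hzx
        tauto) nqs npq.symm nqr nps.symm nrs.symm npr hΓ hz hq hs'
    exact main F Γ hF hΓ zF hz pF rF hq hs'

end Pool.Agent.Helper58.MA
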